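import Mathlib

/-!
The reverse characteristic polynomials of permutation matrices.
-/

set_option autoImplicit false

namespace Pool.Agent.Q38.EE

open Polynomial Matrix

/-- the matrix of `v ↦ v ∘ σ` -/
def pm {α : Type*} [DecidableEq α] (σ : α → α) : Matrix α α ℤ :=
  Matrix.of fun i j => if σ i = j then 1 else 0

/-- the determinant of `1 - X • pm σ` -/
noncomputable def cpr {α : Type*} [DecidableEq α] [Fintype α] (σ : α → α) : ℤ[X] :=
  Matrix.charpolyRev (pm σ)

theorem cpr_eq {α : Type*} [DecidableEq α] [Fintype α] (σ : α → α) :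
    cpr σ = Matrix.det (Matrix.of fun i j : α =>
      (if i = j then (1 : ℤ[X]) else 0) - X * (if σ i = j then 1 else 0)) := by
  unfold cpr Matrix.charpolyRev
  congr 1
  ext1 i j
  simp only [Matrix.sub_apply, Matrix.one_apply, Matrix.smul_apply, Matrix.map_apply, pm,
    Matrix.of_apply, smul_eq_mul]
  congr 2
  split_ifs <;> simp

theorem cpr_conj {α β : Type*} [DecidableEq α] [Fintype α] [DecidableEq β] [Fintype β]
    (σ : α → α) (τ : β → β) (e : α ≃ β) (h : ∀ i, e (σ i) = τ (e i)) : cpr σ = cpr τ := by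
  rw [cpr_eq, cpr_eq, ← Matrix.det_submatrix_equiv_self e]
  congr 1
  ext1 i j
  simp only [Matrix.submatrix_apply, Matrix.of_apply, EmbeddingLike.apply_eq_iff_eq, ← h]

theorem cpr_sum {α β : Type*} [DecidableEq α] [Fintype α] [DecidableEq β] [Fintype β]
    (σ : α → α) (τ : β → β) : cpr (Sum.map σ τ) = cpr σ * cpr τ := by
  rw [cpr_eq, cpr_eq, cpr_eq]
  rw [← Matrix.det_fromBlocks_zero₂₁ _ 0]
  congr 1
  ext1 i j
  rcases i with i | i <;> rcases j with j | j <;>
    simp [Matrix.fromBlocks]

theorem cpr_id {α : Type*} [DecidableEq α] [Fintype α] :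
    cpr (id : α → α) = (1 - X) ^ Fintype.card α := by
  rw [cpr_eq]
  have : (Matrix.of fun i j : α => (if i = j then (1 : ℤ[X]) else 0) - X * (if id i = j then 1 else 0))
      = (1 - X : ℤ[X]) • (1 : Matrix α α ℤ[X]) := by
    ext1 i j
    simp only [Matrix.of_apply, Matrix.smul_apply, Matrix.one_apply, id, smul_eq_mul]
    split_ifs <;> ring
  rw [this, Matrix.det_smul, Matrix.det_one, mul_one]

theorem cpr_prod {α β : Type*} [DecidableEq α] [Fintype α] [DecidableEq β] [Fintype β]
    (τ : β → β) : cpr (fun p : β × α => (τ p.1, p.2)) = cpr τ ^ Fintype.card α := by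
  rw [cpr_eq, cpr_eq]
  have : (Matrix.of fun i j : β × α => (if i = j then (1 : ℤ[X]) else 0) -
      X * (if (τ i.1, i.2) = j then 1 else 0)) =
      Matrix.blockDiagonal (fun _ : α => Matrix.of fun i j : β =>
        (if i = j then (1 : ℤ[X]) else 0) - X * (if τ i = j then 1 else 0)) := by
    ext1 ⟨i, a⟩ ⟨j, b⟩
    simp only [Matrix.of_apply, Matrix.blockDiagonal_apply, Prod.mk.injEq]
    by_cases h : a = b
    · simp [h]
    · simp [h]
  rw [this, Matrix.det_blockDiagonal, Finset.prod_const, Finset.card_univ]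

/-- the cyclic permutation -/
theorem cpr_cyc (r : ℕ) : cpr (fun i : Fin (r + 1) => i + 1) = 1 - X ^ (r + 1) := by
  rw [cpr_eq]
  set A : Matrix (Fin (r + 1)) (Fin (r + 1)) ℤ[X] := Matrix.of fun i j =>
      (if i = j then (1 : ℤ[X]) else 0) - X * (if i + 1 = j then 1 else 0) with hA
  set T : Matrix (Fin (r + 1)) (Fin (r + 1)) ℤ[X] := Matrix.of fun i j =>
      if i ≤ j then X ^ ((j : ℕ) - i) else 0 with hT
  have hdT : T.det = 1 := by
    rw [Matrix.det_of_isUpperTriangular]
    · simp [hT]
    · intro i j hij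
      have : ¬ i ≤ j := not_le.mpr hij
      simp [hT, this]
  have hAT : ∀ i j, (A * T) i j = T i j - X * T (i + 1) j := by
    intro i j
    rw [Matrix.mul_apply]
    simp only [hA, Matrix.of_apply, sub_mul, Finset.sum_sub_distrib, ite_mul, one_mul, zero_mul,
      mul_assoc, mul_ite, mul_zero, mul_one]
    simp
  have hdet : (A * T).det = 1 - X ^ (r + 1) := by
    rw [Matrix.det_of_isLowerTriangular]
    · rw [Fin.prod_univ_castSucc]
      have h1 : ∀ i : Fin r, (A * T) i.castSucc i.castSucc = 1 := by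
        intro i
        rw [hAT, Fin.coeSucc_eq_succ]
        have h2 : ¬ i.succ ≤ i.castSucc := by
          rw [not_le]; exact Fin.castSucc_lt_succ
        simp [hT, h2]
      rw [Finset.prod_congr rfl (fun i _ => h1 i), Finset.prod_const_one, one_mul, hAT,
        Fin.last_add_one]
      simp [hT, pow_succ']
    · intro i j hij
      have hij' : i < j := hij
      rw [hAT]
      have hi : i ≠ Fin.last r := fun h => by
        rw [h] at hij'; exact absurd (Fin.le_last j) (not_le.mpr hij')
      obtain ⟨i, rfl⟩ := Fin.exists_castSucc_eq.mpr hi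
      rw [Fin.coeSucc_eq_succ]
      have h2 : i.succ ≤ j := Fin.castSucc_lt_iff_succ_le.mp hij'
      have h3 : (i.castSucc : Fin (r + 1)) ≤ j := hij'.le
      have h4 : ((i.succ : Fin (r + 1)) : ℕ) ≤ j := h2
      rw [Fin.val_succ] at h4
      simp only [hT, Matrix.of_apply, if_pos h2, if_pos h3, Fin.val_succ, Fin.val_castSucc]
      rw [← pow_succ']
      have : (j : ℕ) - (i + 1) + 1 = j - i := by omega
      rw [this, sub_self]
  rw [Matrix.det_mul, hdT, mul_one] at hdet
  exact hdet

end Pool.Agent.Q38.EE
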