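import Mathlib
import Pool.Agent.H160R3.Ser
import Pool.Agent.Q38.EE.Cpr

/-!
Counting fixed functions of the right translations of a finite group.
-/

set_option autoImplicit false

namespace Pool.Agent.Q38.EE

open PowerSeries Pool.Agent.H160R3

theorem FF_pi {w : ℕ} (hw : 0 < w) (n : ℕ) : FF (fun c : Fin n → ℕ => w * ∑ i, c i) := by
  induction n with
  | zero => intro m; infer_instance
  | succ n ih =>
    refine FF_congr (Fin.consEquiv (fun _ : Fin (n + 1) => ℕ)) ?_ (FF_prod (FF_mul hw) ih)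
    rintro ⟨a, c⟩
    simp only [Fin.consEquiv_apply]
    rw [Fin.sum_univ_succ]
    simp only [Fin.cons_zero, Fin.cons_succ]
    ring

theorem ser_pi {w : ℕ} (hw : 0 < w) (n : ℕ) :
    ser (fun c : Fin n → ℕ => w * ∑ i, c i) * (1 - X ^ w) ^ n = 1 := by
  induction n with
  | zero =>
    rw [pow_zero, mul_one]
    ext m
    rw [coeff_ser, coeff_one]
    split_ifs with h
    · subst h
      have : Nat.card {a : Fin 0 → ℕ // w * ∑ i, a i = 0} = 1 := by
        rw [Nat.card_eq_one_iff_unique]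
        refine ⟨inferInstance, ⟨⟨fun i => i.elim0, by simp⟩⟩⟩
      exact_mod_cast this
    · have : IsEmpty {a : Fin 0 → ℕ // w * ∑ i, a i = m} := by
        refine ⟨fun a => h ?_⟩
        have := a.2
        simpa using this.symm
      rw [Nat.card_of_isEmpty, Nat.cast_zero]
  | succ n ih =>
    have e : ser (fun c : Fin (n + 1) → ℕ => w * ∑ i, c i) =
        ser (fun c : ℕ => w * c) * ser (fun c : Fin n → ℕ => w * ∑ i, c i) := by
      rw [← ser_prod (FF_mul hw) (FF_pi hw n)]
      symm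
      refine ser_congr _ _ (Fin.consEquiv (fun _ : Fin (n + 1) => ℕ)) ?_
      rintro ⟨a, c⟩
      simp only [Fin.consEquiv_apply]
      rw [Fin.sum_univ_succ]
      simp only [Fin.cons_zero, Fin.cons_succ]
      ring
    rw [e]
    calc _ = (ser (fun c : ℕ => w * c) * (1 - X ^ w)) *
          (ser (fun c : Fin n → ℕ => w * ∑ i, c i) * (1 - X ^ w) ^ n) := by ring
      _ = 1 := by rw [ih, ser_mul hw, one_mul]

theorem FF_pi' {w : ℕ} (hw : 0 < w) (Q : Type*) [Fintype Q] :
    FF (fun c : Q → ℕ => w * ∑ i, c i) := by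
  refine FF_congr ((Fintype.equivFin Q).symm.arrowCongr (Equiv.refl ℕ)) ?_ (FF_pi hw (Fintype.card Q))
  intro a
  simp only [Equiv.arrowCongr_apply, Equiv.coe_refl, Function.comp, id, Equiv.symm_symm]
  rw [Equiv.sum_comp (Fintype.equivFin Q) a]

theorem ser_pi' {w : ℕ} (hw : 0 < w) (Q : Type*) [Fintype Q] :
    ser (fun c : Q → ℕ => w * ∑ i, c i) * (1 - X ^ w) ^ (Fintype.card Q) = 1 := by
  have key := ser_pi hw (Fintype.card Q)
  have e : ser (fun c : Q → ℕ => w * ∑ i, c i) =
      ser (fun c : Fin (Fintype.card Q) → ℕ => w * ∑ i, c i) := by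
    symm
    refine ser_congr _ _ ((Fintype.equivFin Q).symm.arrowCongr (Equiv.refl ℕ)) ?_
    intro a
    simp only [Equiv.arrowCongr_apply, Equiv.coe_refl, Function.comp, id, Equiv.symm_symm]
    rw [Equiv.sum_comp (Fintype.equivFin Q) a]
  rw [e]
  exact key

theorem ser_fintype {α : Type*} [Fintype α] (h : α → ℕ) :
    ser h = ∑ a, (X : PowerSeries ℤ) ^ h a := by
  classical
  ext m
  rw [coeff_ser, map_sum]
  simp only [coeff_X_pow]
  rw [Finset.sum_ite, Finset.sum_const_zero, add_zero, Finset.sum_const, nsmul_eq_mul, mul_one,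
    Nat.card_eq_fintype_card, Fintype.card_subtype]
  congr 2
  ext a
  simp [eq_comm]

section group

variable {G : Type*} [Group G] [Fintype G] (g : G)

/-- the coset coordinates -/
noncomputable def cf (r : ℕ) (p : Fin (r + 1) × (G ⧸ Subgroup.zpowers g)) : G :=
  p.2.out * g ^ (p.1 : ℕ)

theorem cf_bij {r : ℕ} (hr : orderOf g = r + 1) : Function.Bijective (cf g r) := by
  constructor
  · rintro ⟨i, q⟩ ⟨j, q'⟩ h
    simp only [cf] at h
    have h1 : ∀ (q : G ⧸ Subgroup.zpowers g) (i : ℕ),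
        (QuotientGroup.mk (q.out * g ^ i) : G ⧸ Subgroup.zpowers g) = q := by
      intro q i
      rw [QuotientGroup.mk_mul_of_mem _ (Subgroup.pow_mem _ (Subgroup.mem_zpowers g) i)]
      exact Quotient.out_eq' q
    have h2 : q = q' := by rw [← h1 q i, h, h1 q' j]
    subst h2
    have h3 : g ^ (i : ℕ) = g ^ (j : ℕ) := mul_left_cancel h
    have h4 := pow_injOn_Iio_orderOf (x := g) (by rw [hr]; exact i.2) (by rw [hr]; exact j.2) h3
    exact Prod.ext (Fin.ext h4) rfl
  · intro x
    set q : G ⧸ Subgroup.zpowers g := QuotientGroup.mk x with hq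
    have h1 : q.out⁻¹ * x ∈ Subgroup.zpowers g := by
      rw [← QuotientGroup.eq]
      exact Quotient.out_eq' q
    have h2 : q.out⁻¹ * x ∈ Submonoid.powers g := by
      rwa [← mem_powers_iff_mem_zpowers] at h1
    obtain ⟨k, hk⟩ := h2
    refine ⟨(⟨k % (r + 1), Nat.mod_lt _ (Nat.succ_pos r)⟩, q), ?_⟩
    simp only [cf]
    rw [← hr, pow_mod_orderOf]
    have hk' : g ^ k = q.out⁻¹ * x := hk
    rw [hk', mul_inv_cancel_left]

theorem cf_succ {r : ℕ} (hr : orderOf g = r + 1) (i : Fin (r + 1)) (q : G ⧸ Subgroup.zpowers g) :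
    cf g r (i + 1, q) = cf g r (i, q) * g := by
  simp only [cf]
  rw [mul_assoc, ← pow_succ]
  congr 1
  rw [← pow_mod_orderOf g ((i : ℕ) + 1), hr, Fin.val_add]
  congr 1
  rcases Nat.eq_zero_or_pos r with h | h
  · subst h; simp [Nat.mod_one]
  · rw [Fin.val_one', Nat.mod_eq_of_lt (show 1 < r + 1 by omega)]

open Classical in
theorem card_cosets {r : ℕ} (hr : orderOf g = r + 1) :
    (r + 1) * Fintype.card (G ⧸ Subgroup.zpowers g) = Fintype.card G := by
  rw [← Fintype.card_of_bijective (cf_bij g hr), Fintype.card_prod, Fintype.card_fin]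

open Classical in
theorem cpr_translation [DecidableEq G] {r : ℕ} (hr : orderOf g = r + 1) :
    cpr (fun x : G => x * g) = (1 - Polynomial.X ^ (r + 1)) ^
      Fintype.card (G ⧸ Subgroup.zpowers g) := by
  rw [← cpr_cyc r, ← cpr_prod]
  symm
  refine cpr_conj _ _ (Equiv.ofBijective _ (cf_bij g hr)) ?_
  rintro ⟨i, q⟩
  exact cf_succ g hr i q

/-- functions fixed by a translation -/
def FixG : Type _ := {a : G → ℕ // ∀ x, a (x * g) = a x}

/-- fixed functions are functions on the cosets -/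
noncomputable def fixEquiv : (G ⧸ Subgroup.zpowers g → ℕ) ≃ FixG g where
  toFun b := ⟨fun x => b (QuotientGroup.mk x), fun x => by
    simp only
    rw [QuotientGroup.mk_mul_of_mem _ (Subgroup.mem_zpowers g)]⟩
  invFun a := fun q => a.1 q.out
  left_inv b := by
    funext q
    simp only
    congr 1
    exact Quotient.out_eq' q
  right_inv := by
    rintro ⟨a, ha⟩
    apply Subtype.ext
    funext x
    simp only
    have hpow : ∀ (k : ℕ) (x : G), a (x * g ^ k) = a x := by
      intro k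
      induction k with
      | zero => intro x; simp
      | succ k ih => intro x; rw [pow_succ, ← mul_assoc, ha, ih]
    set q : G ⧸ Subgroup.zpowers g := QuotientGroup.mk x with hq
    have h1 : q.out⁻¹ * x ∈ Subgroup.zpowers g := by
      rw [← QuotientGroup.eq]
      exact Quotient.out_eq' q
    have h2 : q.out⁻¹ * x ∈ Submonoid.powers g := by
      rwa [← mem_powers_iff_mem_zpowers] at h1
    obtain ⟨k, hk⟩ := h2
    have hk' : g ^ k = q.out⁻¹ * x := hk
    have h3 : x = q.out * g ^ k := by rw [hk', mul_inv_cancel_left]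
    conv_rhs => rw [h3]
    rw [hpow]

open Classical in
theorem fix_height {r : ℕ} (hr : orderOf g = r + 1) (b : G ⧸ Subgroup.zpowers g → ℕ) :
    ∑ x, (fixEquiv g b).1 x = (r + 1) * ∑ q, b q := by
  rw [← (Equiv.ofBijective _ (cf_bij g hr)).sum_comp, Fintype.sum_prod_type]
  have : ∀ (i : Fin (r + 1)) (q : G ⧸ Subgroup.zpowers g),
      (fixEquiv g b).1 ((Equiv.ofBijective _ (cf_bij g hr)) (i, q)) = b q := by
    intro i q
    simp only [fixEquiv, Equiv.coe_fn_mk, Equiv.ofBijective_apply, cf]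
    congr 1
    rw [QuotientGroup.mk_mul_of_mem _ (Subgroup.pow_mem _ (Subgroup.mem_zpowers g) _)]
    exact Quotient.out_eq' q
  simp only [this]
  simp

/-- the height of a fixed function -/
def hF (a : FixG g) : ℕ := ∑ x, a.1 x

theorem FF_hF : FF (hF g) := by
  classical
  obtain ⟨r, hr⟩ : ∃ r, orderOf g = r + 1 := ⟨orderOf g - 1, by have := orderOf_pos g; omega⟩
  exact FF_congr (fixEquiv g) (fun b => fix_height g hr b)
    (FF_pi' (Nat.succ_pos r) (G ⧸ Subgroup.zpowers g))

open Classical in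
theorem ser_hF {r : ℕ} (hr : orderOf g = r + 1) :
    ser (hF g) * (1 - X ^ (r + 1)) ^ Fintype.card (G ⧸ Subgroup.zpowers g) = 1 := by
  have key := ser_pi' (Nat.succ_pos r) (G ⧸ Subgroup.zpowers g)
  have e : ser (hF g) = ser (fun c : G ⧸ Subgroup.zpowers g → ℕ => r.succ * ∑ i, c i) := by
    symm
    exact ser_congr _ _ (fixEquiv g) (fun b => fix_height g hr b)
  rw [e]
  exact key

/-- the pairs `(a, y)`, `0 ≤ y ≤ height` -/
def QT : Type _ := Σ a : FixG g, Fin (hF g a + 1)

/-- the height of a pair -/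
def hQ (p : QT g) : ℕ := hF g p.1

def qFiber (m : ℕ) : {p : QT g // hQ g p = m} ≃ {a : FixG g // hF g a = m} × Fin (m + 1) where
  toFun p := (⟨p.1.1, p.2⟩, Fin.cast (by have := p.2; unfold hQ at this; rw [this]) p.1.2)
  invFun p := ⟨⟨p.1.1, Fin.cast (by rw [p.1.2]) p.2⟩, p.1.2⟩
  left_inv := by rintro ⟨⟨a, y⟩, h⟩; rfl
  right_inv := by rintro ⟨⟨a, h⟩, y⟩; rfl

theorem FF_hQ : FF (hQ g) := by
  intro m
  have := FF_hF g m
  exact Finite.of_equiv _ (qFiber g m).symm

theorem ser_hQ_deriv : ser (hQ g) = PowerSeries.derivative ℤ (X * ser (hF g)) := by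
  ext m
  rw [coeff_ser, Nat.card_congr (qFiber g m), Nat.card_prod, coeff_derivative, coeff_succ_X_mul,
    coeff_ser]
  simp

open Classical in
theorem ser_hQ {r : ℕ} (hr : orderOf g = r + 1) :
    ser (hQ g) * (1 - X ^ (r + 1)) ^ (Fintype.card (G ⧸ Subgroup.zpowers g) + 1) =
      1 + ((Fintype.card G : ℕ) - 1 : ℤ) • (X : PowerSeries ℤ) ^ (r + 1) := by
  set s := Fintype.card (G ⧸ Subgroup.zpowers g) with hs
  set F := ser (hF g) with hF'
  set D : PowerSeries ℤ := 1 - X ^ (r + 1) with hD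
  have h1 : F * D ^ s = 1 := ser_hF g hr
  have hcard := card_cosets g hr
  rw [← hs] at hcard
  have hD' : PowerSeries.derivative ℤ D = - ((r + 1 : ℕ) : PowerSeries ℤ) * X ^ r := by
    rw [hD, map_sub, Derivation.map_one_eq_zero, Derivation.leibniz_pow, PowerSeries.derivative_X]
    simp
    ring
  have h2 : PowerSeries.derivative ℤ F * D ^ s =
      F * ((s : PowerSeries ℤ) * D ^ (s - 1) * (((r + 1 : ℕ) : PowerSeries ℤ) * X ^ r)) := by
    have h3 := congrArg (PowerSeries.derivative ℤ) h1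
    rw [Derivation.map_one_eq_zero, Derivation.leibniz, Derivation.leibniz_pow, hD'] at h3
    simp only [smul_eq_mul, nsmul_eq_mul] at h3
    linear_combination h3
  rw [ser_hQ_deriv, Derivation.leibniz, PowerSeries.derivative_X]
  simp only [smul_eq_mul, mul_one]
  have hc : ((Fintype.card G : ℕ) : PowerSeries ℤ) = ((r + 1 : ℕ) : PowerSeries ℤ) * s := by
    rw [← hcard]; push_cast; ring
  have h5 : (s : PowerSeries ℤ) * D ^ (s - 1) * D = s * D ^ s := by
    rcases Nat.eq_zero_or_pos s with h | h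
    · rw [h]; simp
    · obtain ⟨t, ht⟩ : ∃ t, s = t + 1 := ⟨s - 1, by omega⟩
      rw [ht, Nat.add_sub_cancel, pow_succ]; ring
  have h6 : ((Fintype.card G : ℕ) - 1 : ℤ) • (X : PowerSeries ℤ) ^ (r + 1) =
      (((Fintype.card G : ℕ) : PowerSeries ℤ) - 1) * X ^ (r + 1) := by
    rw [zsmul_eq_mul]; push_cast; ring
  rw [h6, hc]
  calc (X * PowerSeries.derivative ℤ F + F) * D ^ (s + 1)
      = X * (PowerSeries.derivative ℤ F * D ^ s) * D + F * D ^ s * D := by rw [pow_succ]; ring
    _ = X * (F * ((s : PowerSeries ℤ) * D ^ (s - 1) * (((r + 1 : ℕ) : PowerSeries ℤ) * X ^ r))) * D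
        + 1 * D := by rw [h2, h1]
    _ = F * ((s : PowerSeries ℤ) * D ^ (s - 1) * D) * (((r + 1 : ℕ) : PowerSeries ℤ) *
        X ^ (r + 1)) + D := by ring
    _ = (F * D ^ s) * (s : PowerSeries ℤ) * (((r + 1 : ℕ) : PowerSeries ℤ) * X ^ (r + 1)) + D := by
        rw [h5]; ring
    _ = _ := by rw [h1, hD]; ring

end group

end Pool.Agent.Q38.EE
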