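import Mathlib
import Pool.Agent.Q38.EE.Fix

/-!
The join of the prism over the simplex of a finite group with a lattice simplex: inequalities and
lattice points.
-/

set_option autoImplicit false

open scoped Pointwise

namespace Pool.Agent.Q38.EE

open PowerSeries Pool.Agent.H160R3

/-- the coordinates -/
abbrev Idx (G : Type) (j : ℕ) : Type := G ⊕ (Unit ⊕ (Fin j ⊕ Unit))

/-- the labels of the vertices -/
abbrev Vtx (G : Type) (j : ℕ) : Type := (G × Bool) ⊕ (Fin j ⊕ Bool)

/-- a vector with given coordinates -/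
def pack {G : Type} {j : ℕ} {R : Type} (a : G → R) (y : R) (x : Fin j → R) (z : R) : Idx G j → R :=
  Sum.elim a (Sum.elim (fun _ => y) (Sum.elim x (fun _ => z)))

theorem pack_eta {G : Type} {j : ℕ} {R : Type} (v : Idx G j → R) :
    pack (fun g => v (Sum.inl g)) (v (Sum.inr (Sum.inl ()))) (fun i => v (Sum.inr (Sum.inr (Sum.inl i))))
      (v (Sum.inr (Sum.inr (Sum.inr ())))) = v := by
  funext i
  rcases i with g | ⟨⟩ | i | ⟨⟩ <;> rfl

section

variable {G : Type} [DecidableEq G] [Fintype G] (n k j : ℕ)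

/-- the vertices -/
def vert : Vtx G j → Idx G j → ℤ
  | Sum.inl (x, b) => pack (fun x' => if x' = x then 1 else 0) (if b then 1 else 0) (fun _ => 0) 0
  | Sum.inr (Sum.inl i) => pack (fun _ => 0) 0 (fun i' => if i' = i then 1 else 0) 0
  | Sum.inr (Sum.inr false) => pack (fun _ => 0) 0 (fun _ => 0) 0
  | Sum.inr (Sum.inr true) => pack (fun _ => 0) 0 (fun _ => -1) n

/-- the sum of the first coordinates -/
def sA (v : Idx G j → ℤ) : ℤ := ∑ g, v (Sum.inl g)

/-- the remaining barycentric coordinate -/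
def x0 (v : Idx G j → ℤ) (m : ℕ) : ℤ :=
  m - sA j v - ∑ i, v (Sum.inr (Sum.inr (Sum.inl i))) - k * v (Sum.inr (Sum.inr (Sum.inr ())))

/-- the inequalities -/
def Ineq (v : Idx G j → ℤ) (m : ℕ) : Prop :=
  (∀ g, 0 ≤ v (Sum.inl g)) ∧ 0 ≤ v (Sum.inr (Sum.inl ())) ∧ v (Sum.inr (Sum.inl ())) ≤ sA j v ∧
    0 ≤ v (Sum.inr (Sum.inr (Sum.inr ()))) ∧
    (∀ i, 0 ≤ n * v (Sum.inr (Sum.inr (Sum.inl i))) + v (Sum.inr (Sum.inr (Sum.inr ())))) ∧
    0 ≤ n * x0 k j v m + v (Sum.inr (Sum.inr (Sum.inr ())))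

/-- the polytope -/
def PP : Set (Idx G j → ℝ) :=
  convexHull ℝ (Set.range fun w : Vtx G j => fun i => ((vert n j w i : ℤ) : ℝ))

theorem mem_iff (hn : 0 < n) (hj : j + 2 = n * k) (v : Idx G j → ℤ) (m : ℕ) :
    (fun i => ((v i : ℤ) : ℝ)) ∈ (m : ℝ) • PP (G := G) n j ↔ Ineq n k j v m := by
  have hnR : (0 : ℝ) < n := by exact_mod_cast hn
  have hjR : (j : ℝ) + 2 = n * k := by exact_mod_cast hj
  constructor
  · intro h
    obtain ⟨c, hc, hs, hx⟩ := exists_of_mem_smul_hull _ _ (Nat.cast_nonneg m) _ h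
    have ha : ∀ g, (v (Sum.inl g) : ℝ) = c (Sum.inl (g, true)) + c (Sum.inl (g, false)) := by
      intro g
      have := congrFun hx (Sum.inl g)
      rw [this]
      simp [Fintype.sum_sum_type, Fintype.sum_prod_type, vert, pack, Finset.sum_apply,
        Finset.sum_add_distrib]
    have hy : (v (Sum.inr (Sum.inl ())) : ℝ) = ∑ g, c (Sum.inl (g, true)) := by
      have := congrFun hx (Sum.inr (Sum.inl ()))
      rw [this]
      simp [Fintype.sum_sum_type, Fintype.sum_prod_type, vert, pack, Finset.sum_apply,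
        Finset.sum_add_distrib]
    have hxi : ∀ i, (v (Sum.inr (Sum.inr (Sum.inl i))) : ℝ) =
        c (Sum.inr (Sum.inl i)) - c (Sum.inr (Sum.inr true)) := by
      intro i
      have := congrFun hx (Sum.inr (Sum.inr (Sum.inl i)))
      rw [this]
      simp [Fintype.sum_sum_type, Fintype.sum_prod_type, vert, pack, Finset.sum_apply,
        Finset.sum_add_distrib]
      ring
    have hz : (v (Sum.inr (Sum.inr (Sum.inr ()))) : ℝ) = n * c (Sum.inr (Sum.inr true)) := by
      have := congrFun hx (Sum.inr (Sum.inr (Sum.inr ())))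
      rw [this]
      simp [Fintype.sum_sum_type, Fintype.sum_prod_type, vert, pack, Finset.sum_apply,
        Finset.sum_add_distrib]
      ring
    have hsA : ((sA j v : ℤ) : ℝ) = ∑ g, (c (Sum.inl (g, true)) + c (Sum.inl (g, false))) := by
      rw [sA]; push_cast; exact Finset.sum_congr rfl fun g _ => ha g
    have hs' : ∑ g, (c (Sum.inl (g, true)) + c (Sum.inl (g, false))) +
        (∑ i, c (Sum.inr (Sum.inl i)) + (c (Sum.inr (Sum.inr true)) +
          c (Sum.inr (Sum.inr false)))) = m := by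
      rw [← hs]
      simp [Fintype.sum_sum_type, Fintype.sum_prod_type]
    refine ⟨fun g => ?_, ?_, ?_, ?_, fun i => ?_, ?_⟩
    · rw [← @Int.cast_le ℝ, ha g]
      push_cast
      exact add_nonneg (hc _) (hc _)
    · rw [← @Int.cast_le ℝ, hy]
      push_cast
      exact Finset.sum_nonneg fun g _ => hc _
    · rw [← @Int.cast_le ℝ, hy, hsA]
      exact Finset.sum_le_sum fun g _ => le_add_of_nonneg_right (hc _)
    · rw [← @Int.cast_le ℝ, hz]
      push_cast
      exact mul_nonneg hnR.le (hc _)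
    · rw [← @Int.cast_le ℝ]
      push_cast
      rw [hxi, hz]
      have := mul_nonneg hnR.le (hc (Sum.inr (Sum.inl i)))
      linarith
    · rw [← @Int.cast_le ℝ]
      have e : ((x0 k j v m : ℤ) : ℝ) = c (Sum.inr (Sum.inr false)) - c (Sum.inr (Sum.inr true)) := by
        rw [x0]
        push_cast
        rw [hsA, hz, Finset.sum_congr rfl fun i _ => hxi i, Finset.sum_sub_distrib,
          Finset.sum_const, Finset.card_univ, Fintype.card_fin, nsmul_eq_mul, ← hs']
        linear_combination (c (Sum.inr (Sum.inr true))) * hjR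
      push_cast
      rw [e, hz]
      have := mul_nonneg hnR.le (hc (Sum.inr (Sum.inr false)))
      linarith
  · rintro ⟨h1, h2, h3, h4, h5, h6⟩
    set A : ℝ := ((sA j v : ℤ) : ℝ) with hA
    set y : ℝ := ((v (Sum.inr (Sum.inl ())) : ℤ) : ℝ) with hy
    set z : ℝ := ((v (Sum.inr (Sum.inr (Sum.inr ()))) : ℤ) : ℝ) with hz
    have hAs : A = ∑ g, ((v (Sum.inl g) : ℤ) : ℝ) := by rw [hA, sA]; push_cast; rfl
    have hy0 : 0 ≤ y := by rw [hy]; exact_mod_cast h2
    have hyA : y ≤ A := by rw [hy, hA]; exact_mod_cast h3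
    have hz0 : 0 ≤ z := by rw [hz]; exact_mod_cast h4
    have hA0 : 0 ≤ A := hy0.trans hyA
    have hyA' : A * (y / A) = y := by
      rcases hA0.eq_or_lt with h | h
      · have : y = 0 := le_antisymm (by rw [h]; exact hyA) hy0
        rw [this]; simp
      · field_simp
    have hq1 : y / A ≤ 1 := div_le_one_of_le₀ hyA hA0
    have hq0 : 0 ≤ y / A := div_nonneg hy0 hA0
    set c : Vtx G j → ℝ := fun w => match w with
      | Sum.inl (x, true) => (v (Sum.inl x) : ℝ) * (y / A)
      | Sum.inl (x, false) => (v (Sum.inl x) : ℝ) * (1 - y / A)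
      | Sum.inr (Sum.inl i) => (v (Sum.inr (Sum.inr (Sum.inl i))) : ℝ) + z / n
      | Sum.inr (Sum.inr false) => ((x0 k j v m : ℤ) : ℝ) + z / n
      | Sum.inr (Sum.inr true) => z / n with hcdef
    have hx0 : ((x0 k j v m : ℤ) : ℝ) =
        m - A - ∑ i, ((v (Sum.inr (Sum.inr (Sum.inl i))) : ℤ) : ℝ) - k * z := by
      rw [x0, hA, hz]; push_cast; rfl
    have hc0 : ∀ w, 0 ≤ c w := by
      intro w
      rcases w with ⟨x, _ | _⟩ | i | _ | _
      · exact mul_nonneg (by exact_mod_cast h1 x) (by linarith)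
      · exact mul_nonneg (by exact_mod_cast h1 x) hq0
      · have h5' : (0 : ℝ) ≤ n * ((v (Sum.inr (Sum.inr (Sum.inl i))) : ℤ) : ℝ) + z := by
          rw [hz]; exact_mod_cast h5 i
        have : ((v (Sum.inr (Sum.inr (Sum.inl i))) : ℤ) : ℝ) + z / n =
            (n * ((v (Sum.inr (Sum.inr (Sum.inl i))) : ℤ) : ℝ) + z) / n := by
          field_simp
        show 0 ≤ ((v (Sum.inr (Sum.inr (Sum.inl i))) : ℤ) : ℝ) + z / n
        rw [this]
        positivity
      · have h6' : (0 : ℝ) ≤ n * ((x0 k j v m : ℤ) : ℝ) + z := by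
          rw [hz]; exact_mod_cast h6
        have : ((x0 k j v m : ℤ) : ℝ) + z / n = (n * ((x0 k j v m : ℤ) : ℝ) + z) / n := by
          field_simp
        show 0 ≤ ((x0 k j v m : ℤ) : ℝ) + z / n
        rw [this]
        positivity
      · show 0 ≤ z / n
        positivity
    have hzn : (n : ℝ) * (z / n) = z := by field_simp
    have hcs : ∑ w, c w = m := by
      simp only [Fintype.sum_sum_type, Fintype.sum_prod_type, Fintype.sum_bool, hcdef]
      have e1 : ∑ x : G, ((v (Sum.inl x) : ℝ) * (y / A) + (v (Sum.inl x) : ℝ) * (1 - y / A)) = A := by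
        rw [hAs]
        apply Finset.sum_congr rfl
        intro x _
        rw [← hAs]
        ring
      rw [e1, Finset.sum_add_distrib, Finset.sum_const, Finset.card_univ, Fintype.card_fin,
        nsmul_eq_mul, hx0]
      linear_combination (z / n) * hjR + (k : ℝ) * hzn
    have key := mem_smul_hull (fun w : Vtx G j => fun i => ((vert n j w i : ℤ) : ℝ)) c hc0 (m : ℝ) hcs
    have e : (fun i => ((v i : ℤ) : ℝ)) = ∑ w, c w • (fun i => ((vert n j w i : ℤ) : ℝ)) := by
      funext i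
      rw [Finset.sum_apply]
      simp only [Pi.smul_apply, smul_eq_mul]
      simp only [Fintype.sum_sum_type, Fintype.sum_prod_type, Fintype.sum_bool]
      rcases i with g | ⟨⟩ | i | ⟨⟩
      · simp [vert, pack, hcdef, Finset.sum_add_distrib]
        ring
      · simp only [vert, pack, hcdef, Sum.elim_inl, Sum.elim_inr]
        simp
        rw [← Finset.sum_mul, ← hAs, hyA']
      · simp [vert, pack, hcdef, Finset.sum_add_distrib]
      · simp [vert, pack, hcdef, Finset.sum_add_distrib]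
        rw [mul_comm, hzn]
    rw [e]
    exact key

end

section group

variable {G : Type} [DecidableEq G] [Fintype G] [Group G] (n k j : ℕ) (g : G)

/-- the lattice points of the cone fixed by `g` -/
def TT : Type := {t : (Idx G j → ℤ) × ℕ // Ineq n k j t.1 t.2 ∧ ∀ x, t.1 (Sum.inl (x * g)) = t.1 (Sum.inl x)}

def hTT (t : TT n k j g) : ℕ := t.1.2

/-- the height on the second factor -/
def hR (q : (Fin j ⊕ Bool → ℕ) × Fin n) : ℕ := 1 * ∑ i, q.1 i + k * (q.2 : ℕ)

/-- the decomposition -/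
def dec (q : QT g × ((Fin j ⊕ Bool → ℕ) × Fin n)) : (Idx G j → ℤ) × ℕ :=
  (pack (fun x => (q.1.1.1 x : ℤ)) ((q.1.2 : ℕ) : ℤ)
      (fun i => (q.2.1 (Sum.inl i) : ℤ) - q.2.1 (Sum.inr true)) (n * q.2.1 (Sum.inr true) + (q.2.2 : ℕ)),
    hQ g q.1 + hR n k j q.2)

theorem dec_x0 (hj : j + 2 = n * k) (q : QT g × ((Fin j ⊕ Bool → ℕ) × Fin n)) :
    x0 k j (dec n k j g q).1 (dec n k j g q).2 = q.2.1 (Sum.inr false) - q.2.1 (Sum.inr true) := by
  obtain ⟨⟨a, y⟩, ⟨c, jj⟩⟩ := q
  have hjZ : (j : ℤ) + 2 = n * k := by exact_mod_cast hj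
  simp only [x0, sA, dec, pack, hQ, hR, hF, Sum.elim_inl, Sum.elim_inr, Finset.sum_sub_distrib,
    Finset.sum_const, Finset.card_univ, Fintype.card_fin, nsmul_eq_mul, Fintype.sum_sum_type,
    Fintype.sum_bool]
  push_cast
  linear_combination (c (Sum.inr true) : ℤ) * hjZ

theorem dec_mem (hj : j + 2 = n * k) (q : QT g × ((Fin j ⊕ Bool → ℕ) × Fin n)) :
    Ineq n k j (dec n k j g q).1 (dec n k j g q).2 ∧
      ∀ x, (dec n k j g q).1 (Sum.inl (x * g)) = (dec n k j g q).1 (Sum.inl x) := by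
  have h0 := dec_x0 n k j g hj q
  refine ⟨⟨?_, ?_, ?_, ?_, ?_, ?_⟩, ?_⟩
  · intro x; simp [dec, pack]
  · simp [dec, pack]
  · have h1 := q.1.2.2
    have h2 : ((q.1.2 : ℕ) : ℤ) ≤ (hF g q.1.1 : ℤ) := by exact_mod_cast Nat.lt_succ_iff.mp h1
    simpa [dec, pack, sA, hF] using h2
  · simp only [dec, pack, Sum.elim_inr]; positivity
  · intro i
    have : (n : ℤ) * ((q.2.1 (Sum.inl i) : ℤ) - q.2.1 (Sum.inr true)) +
        (n * q.2.1 (Sum.inr true) + (q.2.2 : ℕ)) = n * q.2.1 (Sum.inl i) + (q.2.2 : ℕ) := by ring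
    simp only [dec, pack, Sum.elim_inr, Sum.elim_inl]
    rw [this]; positivity
  · rw [h0]
    have : (n : ℤ) * ((q.2.1 (Sum.inr false) : ℤ) - q.2.1 (Sum.inr true)) +
        (n * q.2.1 (Sum.inr true) + (q.2.2 : ℕ)) = n * q.2.1 (Sum.inr false) + (q.2.2 : ℕ) := by ring
    simp only [dec, pack, Sum.elim_inr]
    rw [this]; positivity
  · intro x
    simp only [dec, pack, Sum.elim_inl]
    exact_mod_cast q.1.1.2 x

/-- the decomposition as a map to the cone -/
def decT (hj : j + 2 = n * k) (q : QT g × ((Fin j ⊕ Bool → ℕ) × Fin n)) : TT n k j g :=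
  ⟨dec n k j g q, dec_mem n k j g hj q⟩

theorem divmod_unique {n : ℕ} {a b : ℕ} {i i' : Fin n} (h : (n : ℤ) * a + (i : ℕ) = n * b + (i' : ℕ)) :
    a = b ∧ i = i' := by
  have h1 : n * a + i = n * b + i' := by exact_mod_cast h
  have hn : 0 < n := lt_of_le_of_lt (Nat.zero_le _) i.2
  have h2 := congrArg (· / n) h1
  simp only [Nat.mul_add_div hn, Nat.div_eq_of_lt i.2, Nat.div_eq_of_lt i'.2, add_zero] at h2
  subst h2
  exact ⟨rfl, Fin.ext (by omega)⟩

theorem decT_bij (hn : 0 < n) (hj : j + 2 = n * k) : Function.Bijective (decT n k j g hj) := by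
  constructor
  · intro q q' h
    have h0 := congrArg Subtype.val h
    have hq := dec_x0 n k j g hj q
    have hq' := dec_x0 n k j g hj q'
    change dec n k j g q = dec n k j g q' at h0
    rw [h0, hq'] at hq
    have hv := congrArg Prod.fst h0
    obtain ⟨⟨⟨a, ha⟩, y⟩, ⟨c, jj⟩⟩ := q
    obtain ⟨⟨⟨a', ha'⟩, y'⟩, ⟨c', jj'⟩⟩ := q'
    have e1 : a = a' := by
      funext x
      have := congrFun hv (Sum.inl x)
      simp only [dec, pack, Sum.elim_inl] at this
      exact_mod_cast this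
    subst e1
    have e2 : y = y' := by
      have := congrFun hv (Sum.inr (Sum.inl ()))
      simp only [dec, pack, Sum.elim_inl, Sum.elim_inr] at this
      exact Fin.ext (by exact_mod_cast this)
    subst e2
    have e3 := congrFun hv (Sum.inr (Sum.inr (Sum.inr ())))
    simp only [dec, pack, Sum.elim_inr] at e3
    obtain ⟨e4, e5⟩ := divmod_unique e3
    subst e5
    have e6 : c = c' := by
      funext i
      rcases i with i | _ | _
      · have := congrFun hv (Sum.inr (Sum.inr (Sum.inl i)))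
        simp only [dec, pack, Sum.elim_inl, Sum.elim_inr] at this
        have e4' : ((c (Sum.inr true) : ℕ) : ℤ) = c' (Sum.inr true) := by exact_mod_cast e4
        have : (c (Sum.inl i) : ℤ) = c' (Sum.inl i) := by linarith
        exact_mod_cast this
      · simp only at hq
        have e4' : ((c (Sum.inr true) : ℕ) : ℤ) = c' (Sum.inr true) := by exact_mod_cast e4
        have : (c (Sum.inr false) : ℤ) = c' (Sum.inr false) := by linarith
        exact_mod_cast this
      · exact e4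
    subst e6
    rfl
  · rintro ⟨⟨v, m⟩, ⟨h1, h2, h3, h4, h5, h6⟩, h7⟩
    simp only at h1 h2 h3 h4 h5 h6 h7
    set z := v (Sum.inr (Sum.inr (Sum.inr ()))) with hz
    have hnZ : (0 : ℤ) < n := by exact_mod_cast hn
    have hdiv : (n : ℤ) * (z / n) + z % n = z := Int.mul_ediv_add_emod z n
    have hmod0 := Int.emod_nonneg z hnZ.ne'
    have hmod1 := Int.emod_lt_of_pos z hnZ
    have hq0 : 0 ≤ z / n := Int.ediv_nonneg h4 hnZ.le
    have hfloor : ∀ t : ℤ, 0 ≤ n * t + z → 0 ≤ t + z / n := by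
      intro t ht
      by_contra hcon
      push Not at hcon
      have h8 : t + z / n + 1 ≤ 0 := by omega
      have h9 : (n : ℤ) * (t + z / n + 1) ≤ 0 := mul_nonpos_of_nonneg_of_nonpos hnZ.le h8
      nlinarith
    set a : G → ℕ := fun x => (v (Sum.inl x)).toNat with hadef
    have haZ : ∀ x, ((a x : ℕ) : ℤ) = v (Sum.inl x) := fun x => Int.toNat_of_nonneg (h1 x)
    have ha : ∀ x, a (x * g) = a x := fun x => by simp only [hadef]; rw [h7]
    set y := v (Sum.inr (Sum.inl ())) with hy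
    have hyZ : ((y.toNat : ℕ) : ℤ) = y := Int.toNat_of_nonneg h2
    have hFa : ((hF g ⟨a, ha⟩ : ℕ) : ℤ) = sA j v := by
      simp only [hF, sA]; push_cast; exact Finset.sum_congr rfl fun x _ => haZ x
    have hylt : y.toNat < hF g ⟨a, ha⟩ + 1 := by
      zify; rw [hyZ, hFa]; omega
    set c : Fin j ⊕ Bool → ℕ := fun i => match i with
      | Sum.inl i => (v (Sum.inr (Sum.inr (Sum.inl i))) + z / n).toNat
      | Sum.inr false => (x0 k j v m + z / n).toNat
      | Sum.inr true => (z / n).toNat with hc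
    have hc1 : ∀ i, ((c (Sum.inl i) : ℕ) : ℤ) = v (Sum.inr (Sum.inr (Sum.inl i))) + z / n :=
      fun i => Int.toNat_of_nonneg (hfloor _ (h5 i))
    have hc2 : ((c (Sum.inr false) : ℕ) : ℤ) = x0 k j v m + z / n := Int.toNat_of_nonneg (hfloor _ h6)
    have hc3 : ((c (Sum.inr true) : ℕ) : ℤ) = z / n := Int.toNat_of_nonneg hq0
    have hjjlt : (z % n).toNat < n := by zify; rw [Int.toNat_of_nonneg hmod0]; exact hmod1
    have hjjZ : (((z % n).toNat : ℕ) : ℤ) = z % n := Int.toNat_of_nonneg hmod0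
    have hfst : (dec n k j g (⟨⟨a, ha⟩, ⟨y.toNat, hylt⟩⟩, (c, ⟨(z % n).toNat, hjjlt⟩))).1 = v := by
      simp only [dec]
      rw [← pack_eta v]
      congr 1
      · funext x; exact haZ x
      · funext i; rw [hc1, hc3]; ring
      · rw [hc3, hjjZ, hdiv]
    refine ⟨(⟨⟨a, ha⟩, ⟨y.toNat, hylt⟩⟩, (c, ⟨(z % n).toNat, hjjlt⟩)), ?_⟩
    apply Subtype.ext
    apply Prod.ext
    · exact hfst
    · show (dec n k j g (⟨⟨a, ha⟩, ⟨y.toNat, hylt⟩⟩, (c, ⟨(z % n).toNat, hjjlt⟩))).2 = m
      have h8 := dec_x0 n k j g hj (⟨⟨a, ha⟩, ⟨y.toNat, hylt⟩⟩, (c, ⟨(z % n).toNat, hjjlt⟩))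
      rw [hfst] at h8
      simp only [hc2, hc3] at h8
      have h9 : x0 k j v (dec n k j g (⟨⟨a, ha⟩, ⟨y.toNat, hylt⟩⟩, (c, ⟨(z % n).toNat, hjjlt⟩))).2 =
          x0 k j v m := by rw [h8]; ring
      simp only [x0] at h9
      have h10 : (((dec n k j g (⟨⟨a, ha⟩, ⟨y.toNat, hylt⟩⟩, (c, ⟨(z % n).toNat, hjjlt⟩))).2 : ℕ) : ℤ)
          = m := by linarith
      exact_mod_cast h10

theorem FF_hR (hn : 0 < n) : FF (hR n k j) := by
  have h1 : FF (fun q : Fin n => k * (q : ℕ)) := fun m => inferInstance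
  exact FF_prod (FF_pi' one_pos (Fin j ⊕ Bool)) h1

theorem ser_hR (hn : 0 < n) : ser (hR n k j) * (1 - X) ^ (j + 2) =
    ∑ i ∈ Finset.range n, (X : PowerSeries ℤ) ^ (k * i) := by
  have h1 : FF (fun q : Fin n => k * (q : ℕ)) := fun m => inferInstance
  have e : ser (hR n k j) = ser (fun c : Fin j ⊕ Bool → ℕ => 1 * ∑ i, c i) *
      ser (fun q : Fin n => k * (q : ℕ)) := by
    rw [← ser_prod (FF_pi' one_pos (Fin j ⊕ Bool)) h1]
    rfl
  have h2 := ser_pi' one_pos (Fin j ⊕ Bool)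
  rw [Fintype.card_sum, Fintype.card_fin, Fintype.card_bool, pow_one] at h2
  rw [e, ser_fintype (fun q : Fin n => k * (q : ℕ))]
  calc _ = (ser (fun c : Fin j ⊕ Bool → ℕ => 1 * ∑ i, c i) * (1 - X) ^ (j + 2)) *
        ∑ a : Fin n, (X : PowerSeries ℤ) ^ (k * (a : ℕ)) := by ring
    _ = _ := by rw [h2, one_mul, Finset.sum_range]

theorem ser_TT (hn : 0 < n) (hj : j + 2 = n * k) :
    ser (hTT n k j g) = ser (hQ g) * ser (hR n k j) := by
  rw [← ser_prod (FF_hQ g) (FF_hR n k j hn)]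
  symm
  exact ser_congr _ _ (Equiv.ofBijective _ (decT_bij n k j g hn hj)) (fun q => rfl)

end group

end Pool.Agent.Q38.EE
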