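import Mathlib
import Pool.Agent.Q38.EE.Geo

/-!
The equivariant series of the polytope: closed form, polynomiality and a coefficient.
-/

set_option autoImplicit false

namespace Pool.Agent.Q38.EE

open PowerSeries Pool.Agent.H160R3

/-- `1 + X + ... + X ^ r` divides `∑ X ^ ((n + 1) i)` -/
theorem geom_dvd {n r : ℕ} (h : (r + 1) ∣ n) :
    (∑ i ∈ Finset.range (r + 1), (Polynomial.X : Polynomial ℤ) ^ i) ∣
      ∑ i ∈ Finset.range n, (Polynomial.X : Polynomial ℤ) ^ ((n + 1) * i) := by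
  have h1 : (∑ i ∈ Finset.range (r + 1), (Polynomial.X : Polynomial ℤ) ^ i) ∣
      (Polynomial.X : Polynomial ℤ) ^ (r + 1) - 1 :=
    ⟨Polynomial.X - 1, (geom_sum_mul _ _).symm⟩
  have h2 : ∀ i, (Polynomial.X : Polynomial ℤ) ^ (r + 1) - 1 ∣ (Polynomial.X : Polynomial ℤ) ^ (n * i) - 1 := by
    intro i
    obtain ⟨t, rfl⟩ := h
    rw [mul_assoc, pow_mul]
    simpa using sub_dvd_pow_sub_pow ((Polynomial.X : Polynomial ℤ) ^ (r + 1)) 1 (t * i)
  have h3 : (∑ i ∈ Finset.range (r + 1), (Polynomial.X : Polynomial ℤ) ^ i) ∣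
      ∑ i ∈ Finset.range n, (Polynomial.X : Polynomial ℤ) ^ i := by
    have h4 := h2 1
    rw [mul_one] at h4
    obtain ⟨w, hw⟩ := h4
    refine ⟨w, ?_⟩
    have h5 : (Polynomial.X : Polynomial ℤ) - 1 ≠ 0 := by
      simpa using Polynomial.X_sub_C_ne_zero (1 : ℤ)
    apply mul_right_cancel₀ h5
    rw [geom_sum_mul, hw, ← geom_sum_mul]
    ring
  have h4 : ∑ i ∈ Finset.range n, (Polynomial.X : Polynomial ℤ) ^ ((n + 1) * i) =
      ∑ i ∈ Finset.range n, (Polynomial.X : Polynomial ℤ) ^ i +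
        ∑ i ∈ Finset.range n, (Polynomial.X : Polynomial ℤ) ^ i *
          ((Polynomial.X : Polynomial ℤ) ^ (n * i) - 1) := by
    rw [← Finset.sum_add_distrib]
    apply Finset.sum_congr rfl
    intro i _
    rw [add_mul, one_mul, pow_add]
    ring
  rw [h4]
  exact dvd_add h3 (Finset.dvd_sum fun i _ => ((h1.trans (h2 i)).mul_left _))

/-- the tail of the sum -/
theorem sum_tail {n : ℕ} (hn : 0 < n) : ∃ E : PowerSeries ℤ,
    ∑ i ∈ Finset.range n, (X : PowerSeries ℤ) ^ ((n + 1) * i) = 1 + E * X ^ (n + 1) := by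
  obtain ⟨t, rfl⟩ : ∃ t, n = t + 1 := ⟨n - 1, by omega⟩
  refine ⟨∑ i ∈ Finset.range t, (X : PowerSeries ℤ) ^ ((t + 1 + 1) * i), ?_⟩
  rw [Finset.sum_range_succ', mul_zero, pow_zero, Finset.sum_mul, add_comm]
  congr 1
  apply Finset.sum_congr rfl
  intro i _
  rw [← pow_add]
  congr 1

section group

variable {G : Type} [DecidableEq G] [Fintype G] [Group G] (j : ℕ) (g : G)

/-- the value of the equivariant series at `g` -/
noncomputable def HS : PowerSeries ℤ :=
  ser (hTT (Fintype.card G) (Fintype.card G + 1) j g) *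
    ((1 - X) * ((cpr (Sum.map (fun x : G => x * g) (id : Unit ⊕ (Fin j ⊕ Unit) → _)) :
      Polynomial ℤ) : PowerSeries ℤ))

theorem HS_mul {r : ℕ} (hr : orderOf g = r + 1)
    (hj : j + 2 = Fintype.card G * (Fintype.card G + 1)) :
    HS j g * (1 - X ^ (r + 1)) = (1 + ((Fintype.card G : ℕ) - 1 : ℤ) • (X : PowerSeries ℤ) ^ (r + 1)) *
      (∑ i ∈ Finset.range (Fintype.card G), (X : PowerSeries ℤ) ^ ((Fintype.card G + 1) * i)) *
      (1 - X) := by
  classical
  have h1 := ser_hQ g hr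
  have h2 := ser_hR (Fintype.card G) (Fintype.card G + 1) j Fintype.card_pos
  have h3 := ser_TT (Fintype.card G) (Fintype.card G + 1) j g Fintype.card_pos hj
  have h4 : ((cpr (Sum.map (fun x : G => x * g) (id : Unit ⊕ (Fin j ⊕ Unit) → _)) :
      Polynomial ℤ) : PowerSeries ℤ) =
      (1 - X ^ (r + 1)) ^ Fintype.card (G ⧸ Subgroup.zpowers g) * (1 - X) ^ (j + 2) := by
    rw [cpr_sum, cpr_id, cpr_translation g hr]
    have : Fintype.card (Unit ⊕ (Fin j ⊕ Unit)) = j + 2 := by simp; omega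
    rw [this]
    push_cast
    rfl
  rw [HS, h3, h4, ← h1, ← h2]
  ring

theorem HS_poly (hj : j + 2 = Fintype.card G * (Fintype.card G + 1)) :
    ∃ p : Polynomial ℤ, HS j g = (p : PowerSeries ℤ) := by
  obtain ⟨r, hr⟩ : ∃ r, orderOf g = r + 1 := ⟨orderOf g - 1, by have := orderOf_pos g; omega⟩
  have h := HS_mul j g hr hj
  have hd : (r + 1) ∣ Fintype.card G := hr ▸ orderOf_dvd_card
  obtain ⟨p, hp⟩ := geom_dvd hd
  refine ⟨(1 + ((Fintype.card G : ℕ) - 1 : ℤ) • Polynomial.X ^ (r + 1)) * p, ?_⟩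
  have hp' : (∑ i ∈ Finset.range (Fintype.card G), (X : PowerSeries ℤ) ^ ((Fintype.card G + 1) * i)) =
      (∑ i ∈ Finset.range (r + 1), (X : PowerSeries ℤ) ^ i) * (p : PowerSeries ℤ) := by
    have := congrArg (Polynomial.coeToPowerSeries.ringHom (R := ℤ)) hp
    simpa only [map_sum, map_mul, map_pow, Polynomial.coeToPowerSeries.ringHom_apply,
      Polynomial.coe_X] using this
  have hD : (1 - (X : PowerSeries ℤ) ^ (r + 1)) = (1 - X) * ∑ i ∈ Finset.range (r + 1), (X : PowerSeries ℤ) ^ i := by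
    rw [mul_neg_geom_sum]
  have hne : (1 - (X : PowerSeries ℤ) ^ (r + 1)) ≠ 0 := by
    intro h0
    have := congrArg (PowerSeries.coeff 0) h0
    simp at this
  apply mul_right_cancel₀ hne
  rw [h, hp', hD]
  have hc : (((1 + ((Fintype.card G : ℕ) - 1 : ℤ) • Polynomial.X ^ (r + 1)) * p : Polynomial ℤ) :
      PowerSeries ℤ) = (1 + ((Fintype.card G : ℕ) - 1 : ℤ) • (X : PowerSeries ℤ) ^ (r + 1)) * p := by
    have h9 : (((((Fintype.card G : ℕ) - 1 : ℤ) • (Polynomial.X : Polynomial ℤ) ^ (r + 1) : Polynomial ℤ)) :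
        PowerSeries ℤ) = ((Fintype.card G : ℕ) - 1 : ℤ) • (X : PowerSeries ℤ) ^ (r + 1) := by
      rw [← Polynomial.coeToPowerSeries.ringHom_apply, map_zsmul,
        Polynomial.coeToPowerSeries.ringHom_apply, Polynomial.coe_pow, Polynomial.coe_X]
    rw [Polynomial.coe_mul, Polynomial.coe_add, Polynomial.coe_one, h9]
  rw [hc]
  ring

theorem coeff_low (Y E : PowerSeries ℤ) {d n : ℕ} (hd : d ≤ n) :
    PowerSeries.coeff d (Y * (1 + E * X ^ (n + 1))) = PowerSeries.coeff d Y := by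
  have : Y * (1 + E * X ^ (n + 1)) = Y + (Y * E) * X ^ (n + 1) := by ring
  rw [this, map_add, PowerSeries.coeff_mul_X_pow', if_neg (by omega), add_zero]

theorem HS_one_coeff (hj : j + 2 = Fintype.card G * (Fintype.card G + 1)) {d : ℕ} (hd : 2 ≤ d)
    (hd' : d ≤ Fintype.card G) : PowerSeries.coeff d (HS j (1 : G)) = 0 := by
  have h := HS_mul j (1 : G) (r := 0) (by simp) hj
  obtain ⟨E, hE⟩ := sum_tail (n := Fintype.card G) Fintype.card_pos
  rw [hE, zero_add, pow_one] at h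
  have hne : (1 - (X : PowerSeries ℤ)) ≠ 0 := by
    intro h0
    have := congrArg (PowerSeries.coeff 0) h0
    simp at this
  have h2 := mul_right_cancel₀ hne h
  rw [h2, coeff_low _ _ hd']
  rw [map_add, map_zsmul, PowerSeries.coeff_one, PowerSeries.coeff_X, if_neg (by omega),
    if_neg (by omega), smul_zero, add_zero]

theorem HS_coeff (hj : j + 2 = Fintype.card G * (Fintype.card G + 1)) {r : ℕ}
    (hr : orderOf g = r + 1) (hr1 : 1 ≤ r) :
    PowerSeries.coeff (r + 1) (HS j g) = Fintype.card G := by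
  have h := HS_mul j g hr hj
  obtain ⟨E, hE⟩ := sum_tail (n := Fintype.card G) Fintype.card_pos
  have hd : r + 1 ≤ Fintype.card G := hr ▸ orderOf_le_card_univ
  rw [hE] at h
  have e1 : (1 + ((Fintype.card G : ℕ) - 1 : ℤ) • (X : PowerSeries ℤ) ^ (r + 1)) *
      (1 + E * X ^ (Fintype.card G + 1)) * (1 - X) =
      ((1 - X) + ((Fintype.card G : ℕ) - 1 : ℤ) • ((X : PowerSeries ℤ) ^ (r + 1) * (1 - X))) *
      (1 + E * X ^ (Fintype.card G + 1)) := by
    rw [zsmul_eq_mul, zsmul_eq_mul]; ring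
  rw [e1] at h
  have hc0 := congrArg (PowerSeries.coeff 0) h
  have hcr := congrArg (PowerSeries.coeff (r + 1)) h
  rw [coeff_low _ _ (Nat.zero_le _)] at hc0
  rw [coeff_low _ _ hd] at hcr
  have e2 : PowerSeries.coeff 0 (HS j g) = 1 := by
    have : HS j g * (1 - X ^ (r + 1)) = HS j g - HS j g * X ^ (r + 1) := by ring
    rw [this, map_sub, PowerSeries.coeff_mul_X_pow', if_neg (by omega), sub_zero] at hc0
    rw [hc0, map_add, map_sub, map_zsmul, PowerSeries.coeff_X_pow_mul', if_neg (by omega)]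
    simp [PowerSeries.coeff_X]
  have e3 : PowerSeries.coeff (r + 1) (HS j g) - PowerSeries.coeff 0 (HS j g) =
      (Fintype.card G : ℕ) - 1 := by
    have : HS j g * (1 - X ^ (r + 1)) = HS j g - HS j g * X ^ (r + 1) := by ring
    rw [this, map_sub, PowerSeries.coeff_mul_X_pow', if_pos le_rfl, Nat.sub_self] at hcr
    rw [hcr, map_add, map_sub, map_zsmul, PowerSeries.coeff_X_pow_mul', if_pos le_rfl, Nat.sub_self]
    have hr0 : ¬ (r + 1 = 1) := by omega
    simp [PowerSeries.coeff_X, PowerSeries.coeff_one, hr0]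
    omega
  rw [e2] at e3
  linarith

end group

end Pool.Agent.Q38.EE
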